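import Pool.Agent.H773.LK.Spec3

/-!
# Project LK: the abstract link between the form and the operator
-/

set_option autoImplicit false

noncomputable section

namespace Pool.Agent.H216.LK

open MeasureTheory Filter Topology Set
open scoped ENNReal NNReal ComplexConjugate InnerProductSpace

section
variable {V H K E : Type} [AddCommGroup V] [Module ℂ V]
  [NormedAddCommGroup H] [InnerProductSpace ℂ H] [CompleteSpace H]
  [NormedAddCommGroup K] [InnerProductSpace ℂ K] [CompleteSpace K]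
  [NormedAddCommGroup E] [InnerProductSpace ℂ E] [CompleteSpace E]
  {c : V →ₗ[ℂ] H} {v : V →ₗ[ℂ] K} {U : H ≃ₗᵢ[ℂ] K} {D Vi : K →L[ℂ] K} {Y : K →L[ℂ] E}
  {gf tf : V → V → ℂ} {α b M : ℝ}

/-- the limit of the form -/
theorem lim_form (hg : ∀ φ ψ, ⟪v φ, v ψ⟫_ℂ = gf φ ψ + M * ⟪c φ, c ψ⟫_ℂ)
    (ht : ∀ φ ψ, (b : ℂ) * ⟪Y (v φ), Y (v ψ)⟫_ℂ = α * tf φ ψ) {ψ : ℕ → V} {w : K} {u : H}
    (hw : Tendsto (fun n => v (ψ n)) atTop (𝓝 w)) (hu : Tendsto (fun n => c (ψ n)) atTop (𝓝 u))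
    (φ : V) : Tendsto (fun n => gf φ (ψ n) - α * tf φ (ψ n)) atTop
      (𝓝 (⟪v φ, (1 - (b : ℂ) • (Y.adjoint ∘L Y)) w⟫_ℂ - M * ⟪c φ, u⟫_ℂ)) := by
  have h1 : Tendsto (fun n => ⟪v φ, v (ψ n)⟫_ℂ) atTop (𝓝 ⟪v φ, w⟫_ℂ) :=
    tendsto_const_nhds.inner hw
  have h2 : Tendsto (fun n => ⟪c φ, c (ψ n)⟫_ℂ) atTop (𝓝 ⟪c φ, u⟫_ℂ) :=
    tendsto_const_nhds.inner hu
  have h3 : Tendsto (fun n => ⟪Y (v φ), Y (v (ψ n))⟫_ℂ) atTop (𝓝 ⟪Y (v φ), Y w⟫_ℂ) :=
    tendsto_const_nhds.inner ((Y.continuous.tendsto w).comp hw)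
  have h4 := (h1.sub (h2.const_mul (M : ℂ))).sub (h3.const_mul (b : ℂ))
  have e1 : ⟪v φ, (1 - (b : ℂ) • (Y.adjoint ∘L Y)) w⟫_ℂ - M * ⟪c φ, u⟫_ℂ =
      ⟪v φ, w⟫_ℂ - M * ⟪c φ, u⟫_ℂ - b * ⟪Y (v φ), Y w⟫_ℂ := by
    rw [_root_.sub_apply, inner_sub_right, _root_.smul_apply,
      inner_smul_right, ContinuousLinearMap.comp_apply, ContinuousLinearMap.adjoint_inner_right,
      one_apply_eq_self]
    ring
  rw [e1]
  refine h4.congr fun n => ?_
  rw [ht, hg]
  ring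

theorem t_LNK : Pool.Agent.H773.LK.S_LNK := by
  intro V H K E _ _ _ _ _ _ _ _ _ _ _ c v U D Vi Y gf tf α b M hM hv hD hDv hg ht hV1 hV2 u g
  have hDs : ∀ x y : K, ⟪D x, y⟫_ℂ = ⟪x, D y⟫_ℂ := fun x y => by
    conv_lhs => rw [← hD.adjoint_eq]
    rw [ContinuousLinearMap.adjoint_inner_left]
  have hnorm : ∀ δ : V, gf δ δ = ((‖v δ‖ ^ 2 - M * ‖c δ‖ ^ 2 : ℝ) : ℂ) := fun δ => by
    have h1 := hg δ δ
    rw [inner_self_eq_norm_sq_to_K, inner_self_eq_norm_sq_to_K] at h1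
    push_cast
    linear_combination -h1
  have key : ∀ φ : V, ⟪v φ, D (U (g + (M : ℂ) • u))⟫_ℂ = ⟪c φ, g⟫_ℂ + M * ⟪c φ, u⟫_ℂ := by
    intro φ
    rw [← hDs, hDv, LinearIsometryEquiv.inner_map_map, inner_add_right, inner_smul_right]
  constructor
  · rintro ⟨ψ, h1, h2, h3⟩
    have hc : CauchySeq fun n => v (ψ n) := by
      rw [Metric.cauchySeq_iff]
      intro ε hε
      have hcu := Metric.cauchySeq_iff.1 h1.cauchySeq (ε / (2 * √M)) (by positivity)
      obtain ⟨N1, hN1⟩ := hcu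
      obtain ⟨N2, hN2⟩ := h2 (ε ^ 2 / 4) (by positivity)
      refine ⟨max N1 N2, fun m hm n hn => ?_⟩
      have a1 := hN1 m (le_trans (le_max_left _ _) hm) n (le_trans (le_max_left _ _) hn)
      have a2 := hN2 m (le_trans (le_max_right _ _) hm) n (le_trans (le_max_right _ _) hn)
      rw [dist_eq_norm, ← map_sub] at a1 ⊢
      rw [hnorm, Complex.norm_real, Real.norm_eq_abs] at a2
      have a3 := (abs_lt.1 a2).2
      have a4 : M * ‖c (ψ m - ψ n)‖ ^ 2 ≤ ε ^ 2 / 4 := by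
        have : ‖c (ψ m - ψ n)‖ ^ 2 ≤ (ε / (2 * √M)) ^ 2 :=
          pow_le_pow_left₀ (norm_nonneg _) a1.le 2
        have e2 : (ε / (2 * √M)) ^ 2 = ε ^ 2 / 4 / M := by
          rw [div_pow, mul_pow, Real.sq_sqrt hM.le]; field_simp; norm_num
        rw [e2, le_div_iff₀ hM] at this
        linarith
      have a5 : ‖v (ψ m - ψ n)‖ ^ 2 < ε ^ 2 := by nlinarith
      exact lt_of_pow_lt_pow_left₀ 2 hε.le a5
    obtain ⟨w, hw⟩ := cauchySeq_tendsto_of_complete hc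
    have hDw : D w = U u := by
      have b1 : Tendsto (fun n => D (v (ψ n))) atTop (𝓝 (D w)) :=
        (D.continuous.tendsto w).comp hw
      have b2 : Tendsto (fun n => D (v (ψ n))) atTop (𝓝 (U u)) :=
        ((U.continuous.tendsto u).comp h1).congr fun n => (hDv (ψ n)).symm
      exact tendsto_nhds_unique b1 b2
    have hw2 : (1 - (b : ℂ) • (Y.adjoint ∘L Y)) w = D (U (g + (M : ℂ) • u)) := by
      have b3 : ∀ φ : V, ⟪v φ, (1 - (b : ℂ) • (Y.adjoint ∘L Y)) w⟫_ℂ =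
          ⟪v φ, D (U (g + (M : ℂ) • u))⟫_ℂ := by
        intro φ
        have b4 := tendsto_nhds_unique (lim_form hg ht hw h1 φ) (h3 φ)
        rw [key]
        linear_combination b4
      exact hv.eq_of_inner_right ℂ b3
    have hw3 : w = Vi (D (U (g + (M : ℂ) • u))) := by
      rw [← hw2]
      exact (DFunLike.congr_fun hV1 w).symm
    rw [← hw3, hDw]
  · intro h
    set w : K := Vi (D (U (g + (M : ℂ) • u))) with hw
    have hw2 : (1 - (b : ℂ) • (Y.adjoint ∘L Y)) w = D (U (g + (M : ℂ) • u)) :=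
      DFunLike.congr_fun hV2 _
    obtain ⟨y, hy1, hy2⟩ := mem_closure_iff_seq_limit.1 (hv w)
    choose ψ hψ using hy1
    have hvψ : Tendsto (fun n => v (ψ n)) atTop (𝓝 w) := by
      refine hy2.congr fun n => ?_
      exact (hψ n).symm
    have hcψ : Tendsto (fun n => c (ψ n)) atTop (𝓝 u) := by
      have b1 : Tendsto (fun n => D (v (ψ n))) atTop (𝓝 (D w)) :=
        (D.continuous.tendsto w).comp hvψ
      rw [← h] at b1
      have b2 := (U.symm.continuous.tendsto (U u)).comp b1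
      rw [U.symm_apply_apply] at b2
      refine b2.congr fun n => ?_
      simp [hDv]
    refine ⟨ψ, hcψ, ?_, fun φ => ?_⟩
    · intro ε hε
      have c1 := Metric.cauchySeq_iff.1 hvψ.cauchySeq (√(ε / 2)) (by positivity)
      have c2 := Metric.cauchySeq_iff.1 hcψ.cauchySeq (√(ε / (2 * M))) (by positivity)
      obtain ⟨N1, hN1⟩ := c1
      obtain ⟨N2, hN2⟩ := c2
      refine ⟨max N1 N2, fun m hm n hn => ?_⟩
      have a1 := hN1 m (le_trans (le_max_left _ _) hm) n (le_trans (le_max_left _ _) hn)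
      have a2 := hN2 m (le_trans (le_max_right _ _) hm) n (le_trans (le_max_right _ _) hn)
      rw [dist_eq_norm, ← map_sub] at a1 a2
      have a3 : ‖v (ψ m - ψ n)‖ ^ 2 < ε / 2 := by
        have := pow_lt_pow_left₀ a1 (norm_nonneg _) two_ne_zero
        rwa [Real.sq_sqrt (by positivity)] at this
      have a4 : M * ‖c (ψ m - ψ n)‖ ^ 2 < ε / 2 := by
        have := pow_lt_pow_left₀ a2 (norm_nonneg _) two_ne_zero
        rw [Real.sq_sqrt (by positivity)] at this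
        calc M * ‖c (ψ m - ψ n)‖ ^ 2 < M * (ε / (2 * M)) := mul_lt_mul_of_pos_left this hM
          _ = ε / 2 := by field_simp
      rw [hnorm, Complex.norm_real, Real.norm_eq_abs, abs_lt]
      have a5 : 0 ≤ ‖v (ψ m - ψ n)‖ ^ 2 := by positivity
      have a6 : 0 ≤ M * ‖c (ψ m - ψ n)‖ ^ 2 := by positivity
      constructor <;> linarith
    · have b4 := lim_form hg ht hvψ hcψ φ
      rw [hw2, key] at b4
      simpa using b4

end

end Pool.Agent.H216.LK
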